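import Pool.Agent.helper65.WB.Main

set_option autoImplicit false

/-!
# MP_07c750_an: all quantum limits of the tensor-product (Walsh) quantised baker maps

For every one-site unitary `U` (the Walsh-quantised baker map of Anantharaman and Nonnenmacher is
the case where `U` is the inverse discrete Fourier matrix) a probability measure `ν` on the digit
sequences is a limit of the position distributions of normalised eigenvectors if and only if its
cylinder probabilities are the diagonal entries of the density matrices of some state of the
infinite quantum chain which is invariant under translations and under `U ⊗ U ⊗ ⋯`.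
-/

namespace Pool.Agent.Results.MP_07c750_an.BakerClassification

open Pool.Agent.helper65.WB

theorem result {D : ℕ} (U : Matrix (Fin D) (Fin D) ℂ)
    (hU : U ∈ Matrix.unitaryGroup (Fin D) ℂ) (ν : MeasureTheory.Measure (ℕ → Fin D))
    [MeasureTheory.IsProbabilityMeasure ν] :
    IsQuantumLimit U ν ↔
      ∃ ρ : ∀ n : ℕ, Matrix (Fin n → Fin D) (Fin n → Fin D) ℂ, IsInvState U ρ ∧
        ∀ (n : ℕ) (w : Fin n → Fin D), ρ n w w = ((ν (cyl w)).toReal : ℂ) :=
  classification U hU ν

end Pool.Agent.Results.MP_07c750_an.BakerClassification
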