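import Pool.Agent.helper62.QX.TopT
import Pool.Agent.helper4.QX.AllT2

set_option autoImplicit false

/-!
# MP_07c750_an: quantum unique ergodicity for covers, with windows growing like a power of the degree

`M = Γ \ ℍ` is a closed hyperbolic surface. There is a constant `c > 0` such that for all `M`:

(1) If `M` has genus `g ≥ 2`, i.e. `Γ` is isomorphic to the group of the closed orientable surface of
genus `g`, there are connected covers `M_n` of `M` of every degree `n`, strongly convergent on the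
vectors of sum zero, such that all new eigenfunctions of `M_n` with eigenvalues in `[0, n^c]`
are asymptotically equidistributed over `M`.

(2) For all sequences of covers which converge strongly on the vectors of sum zero the same holds
for eigenvalues in `[0, b_n]` with some `b_n → ∞`,

(3) and for the eigensections of the flat bundles of unitary representations of `Γ` which converge
strongly to the regular representation.
-/

open scoped MatrixGroups UpperHalfPlane
open UpperHalfPlane Filter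

namespace Pool.Agent.Results.MP_07c750_an.CoversPolyRange

open Pool.Agent.QU Pool.Agent.RP

theorem result : ∃ c : ℝ, 0 < c ∧ ∀ Γ : Subgroup SL(2, ℝ), SurfaceGroup Γ →
    (∀ g : ℕ, 2 ≤ g → Nonempty (Γ ≃* SurfGrp g) →
      ∃ σ : ∀ n : ℕ, Γ →* Equiv.Perm (Fin n), (∀ n i j, ∃ γ, σ n γ i = j) ∧
        StrongLimPerm (fun n => n) σ ∧
        ∀ h : ℍ → ℝ, IsTest Γ h → ∀ ε : ℝ, 0 < ε → ∀ᶠ n in atTop,
          ∀ (μ : ℝ) (φ : ℍ → Fin n → ℂ), 0 ≤ μ → μ ≤ (n : ℝ) ^ c →
            IsNewEigenfunction (σ n) μ φ → Equidist Γ h (fun z => ∑ i, ‖φ z i‖ ^ 2) ε) ∧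
    (∀ (N : ℕ → ℕ) (σ : ∀ n, Γ →* Equiv.Perm (Fin (N n))), StrongLimPerm N σ → NewQUE Γ N σ) ∧
    ∀ (V : ℕ → Type) [∀ n, NormedAddCommGroup (V n)] [∀ n, InnerProductSpace ℂ (V n)]
      [∀ n, CompleteSpace (V n)] (ρ : ∀ n, Γ →* (V n ≃ₗᵢ[ℂ] V n)), StrongLim V ρ →
      ∃ b : ℕ → ℝ, Tendsto b atTop atTop ∧ ∀ h : ℍ → ℝ, IsTest Γ h → ∀ ε : ℝ, 0 < ε →
        ∀ᶠ n in atTop, ∀ (μ : ℝ) (φ : ℍ → V n), 0 ≤ μ → μ ≤ b n → IsEigensection (ρ n) μ φ →
          Equidist Γ h (fun z => ‖φ z‖ ^ 2) ε :=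
  Pool.Agent.QX.T_top Pool.Agent.QX.A_DET

end Pool.Agent.Results.MP_07c750_an.CoversPolyRange
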