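import Pool.Agent.helper4.HL.Fin

/-!
# Quantum unique ergodicity (MP_07c750_an): cat maps at generic Planck mantissas

`A ∈ SL(2, ℤ)` is hyperbolic of theta type with trace `t > 2` and larger eigenvalue `λ`. For
Lebesgue-almost every `c > 0` the limits of Wigner transforms of unit eigenvectors of quantizations
of `A` along sequences of Planck parameters `N_j` with `N_j / λ^(k_j) → c`, `k_j → ∞`, are exactly
the Fourier transforms of the measures `(Lebesgue + ν) / 2`, `ν` an `A`-invariant probability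
measure on the torus.
-/

namespace Pool.Agent.Results.MP_07c750_an.GenericMantissa

open Pool.Agent.helper86.CM Pool.Agent.QS Pool.Agent.HL

theorem result : ∀ A : Matrix (Fin 1 ⊕ Fin 1) (Fin 1 ⊕ Fin 1) ℤ,
    A ∈ Matrix.symplecticGroup (Fin 1) ℤ →
    (∀ n : Lat 1, (2 : ℤ) ∣ qf (act A 1 n) - qf n) → 2 < A.trace →
    ∀ᵐ c : ℝ, 0 < c → ∀ F : Lat 1 → ℂ, IsMantissaLimit A c F ↔ IsHalf A F :=
  FIN_done

end Pool.Agent.Results.MP_07c750_an.GenericMantissa
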