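import Pool.Agent.helper65.WB.Ups

set_option autoImplicit false

/-!
# MP_07c750_an: the exact strength of scars on periodic orbits for tensor-product baker maps

For every one-site unitary `U` and every periodic sequence of digits `w`, the largest mass that a
quantum limit can give to the periodic orbit of `w` is `1 / m`, where `m` is the least number of
steps after which `U ⊗ U ⊗ ⋯` maps the orbit to itself (up to phases); it is `0` if this never
happens.
-/

namespace Pool.Agent.Results.MP_07c750_an.PeriodicOrbitScars

open Pool.Agent.helper65.WB MeasureTheory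

theorem result {D : ℕ} (U : Matrix (Fin D) (Fin D) ℂ)
    (hU : U ∈ Matrix.unitaryGroup (Fin D) ℂ) (w : ℕ → Fin D)
    (hw : ∃ s : ℕ, 1 ≤ s ∧ ∀ t, w (t + s) = w t) :
    (∀ m : ℕ, IsLeast {m : ℕ | Returns U w m} m →
      IsGreatest {x : ℝ | ∃ ν : Measure (ℕ → Fin D), IsProbabilityMeasure ν ∧
        IsQuantumLimit U ν ∧ x = (ν (trans w)).toReal} (1 / m)) ∧
    ((∀ m : ℕ, ¬ Returns U w m) → ∀ ν : Measure (ℕ → Fin D), IsProbabilityMeasure ν →
      IsQuantumLimit U ν → ν (trans w) = 0) :=
  scarring U hU w hw

end Pool.Agent.Results.MP_07c750_an.PeriodicOrbitScars
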