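import Pool.Agent.helper4.QS.Fin

set_option autoImplicit false

/-!
# MP_07c750_an: the quantum limits of quantum cat maps at the shortest periods

`A` is a hyperbolic matrix of `SL(2, ℤ)` of theta type with trace `t > 2`. The Planck parameters are
`N = u_k` (`u_0 = 0`, `u_1 = 1`, `u_{k+2} = t u_{k+1} - u_k`), for which the quantum period is the
shortest possible. All limits of the Wigner transforms of eigenvectors are described, they are
transforms of probability measures on the torus, and some of these measures are singular with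
respect to the Lebesgue measure.
-/

namespace Pool.Agent.Results.MP_07c750_an.ShortPeriodClassification

open Pool.Agent.helper86.CM Pool.Agent.QS

theorem result (A : Matrix (Fin 1 ⊕ Fin 1) (Fin 1 ⊕ Fin 1) ℤ)
    (hA : A ∈ Matrix.symplecticGroup (Fin 1) ℤ)
    (hq : ∀ n : Lat 1, (2 : ℤ) ∣ qf (act A 1 n) - qf n) (ht : 2 < A.trace) :
    (∀ F : Lat 1 → ℂ, IsShortLimit A F ↔ ∃ Φ : PP → ℂ, IsInvState A Φ ∧ ∀ n, F n = Φ (n, 0)) ∧
    (∀ F : Lat 1 → ℂ, IsShortLimit A F → IsTransform F) ∧
    ∃ (F : Lat 1 → ℂ) (μ : MeasureTheory.Measure (UnitAddTorus (Fin 1 ⊕ Fin 1))),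
      MeasureTheory.IsProbabilityMeasure μ ∧ IsShortLimit A F ∧
      (∀ n, ∫ y, chr n y ∂μ = F n) ∧ μ.MutuallySingular MeasureTheory.volume :=
  FIN_all A hA hq ht

end Pool.Agent.Results.MP_07c750_an.ShortPeriodClassification
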